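import Pool.Agent.H416.KM.Pl
import Pool.Agent.H416.LG.Cl2

set_option autoImplicit false

/-!
# Cycles over rings with a map to a group ring, and their iterated loops
-/

namespace Pool.Agent.H416.KM

open Polynomial
open Pool.Agent.H139.LG13
open Pool.Agent.H416.LG (Good)
open Pool.Agent.V11187.DG (Cyc Sg)

universe u v w x y z

/-- A ring `A` with a homomorphism `σ` to the group ring `Ω[G]` of a differential ring `(Ω, ε, δ)` with
parity `ε` and a functional `T` on `Ω`. -/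
structure Datum (G : Type w) [Group G] where
  /-- the ring -/
  A : Type y
  [rA : Ring A]
  /-- the differential ring -/
  Ω : Type v
  [rΩ : Ring Ω]
  /-- the parity -/
  ε : Ω →+* Ω
  /-- the differential -/
  δ : Ω →+ Ω
  /-- the trace -/
  T : Ω →+ ℚ
  /-- the map from `A` to the group ring of `Ω` -/
  σ : A →+* MonoidAlgebra Ω G

attribute [instance] Datum.rA Datum.rΩ

variable {G : Type w} [Group G]

/-- `T` is a closed graded trace of dimension `N` on `Ω`, and the coefficients of the image of `σ` are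
even. -/
structure Datum.IsCycle (N : ℕ) (D : Datum.{v, w, y} G) : Prop where
  tr : Tr N D.ε D.δ D.T
  ev : Ev D.ε D.σ

/-- **Loops**: `A` is replaced by the ring of the polynomials `f` over `A` in a variable `t` with
`f(0) = f(1)`, `Ω` by the ring of the forms `a + b dt` (`a`, `b` polynomials over `Ω`, `a(0) = a(1)`), and
`T` by `a + b dt ↦ ∫ T(b) dt` (integral from `0` to `1`). -/
noncomputable def Datum.loop (D : Datum.{v, w, y} G) : Datum.{v, w, y} G where
  A := LP D.A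
  Ω := LF D.ε
  ε := epL D.ε
  δ := dlL D.ε D.δ
  T := TL D.ε D.T
  σ := sL D.ε D.σ

/-- Iterated loops. -/
noncomputable def Datum.loops (D : Datum.{v, w, y} G) : ℕ → Datum.{v, w, y} G
  | 0 => D
  | k + 1 => (D.loops k).loop

theorem Datum.IsCycle.loop {N : ℕ} {D : Datum.{v, w, y} G} (h : D.IsCycle N) :
    D.loop.IsCycle (N + 1) := ⟨h.tr.loop, sL_even h.ev⟩

theorem Datum.IsCycle.loops {N : ℕ} {D : Datum.{v, w, y} G} (h : D.IsCycle N) (k : ℕ) :
    (D.loops k).IsCycle (N + k) := by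
  induction k with
  | zero => exact h
  | succ k ih => exact ih.loop

/-- The vanishing for idempotent and for invertible matrices. -/
def Vanish (N : ℕ) (D : Datum.{v, w, y} G) (g : G) : Prop :=
  ∀ d n : ℕ,
    (Even N → ∀ e : Matrix (Fin d) (Fin d) D.A, e * e = e → cp D.T (wE D.δ D.σ n e) g = 0) ∧
    (Odd N → ∀ u v : Matrix (Fin d) (Fin d) D.A, u * v = 1 → v * u = 1 →
      cp D.T (wU D.δ D.σ n u v) g = 0)

theorem vanish {g : G} (hg : Good.{w, z} G g) {N : ℕ} {D : Datum.{v, w, y} G} (h : D.IsCycle N) :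
    Vanish N D g := fun _ n =>
  ⟨fun hN e he => cp_even hg.van h.tr hN h.ev e he n,
    fun hN u v huv hvu => cp_odd hg.van h.tr hN h.ev u v huv hvu n⟩

theorem values (hG : ∀ g : G, ¬ IsOfFinOrder g → Good.{w, z} G g) {N : ℕ}
    {D : Datum.{v, w, y} G} (h : D.IsCycle N) (d n : ℕ) :
    (Even N → ∀ e : Matrix (Fin d) (Fin d) D.A, e * e = e →
      val D.T (wE D.δ D.σ n e) = fin D.T (wE D.δ D.σ n e)) ∧
    (Odd N → ∀ u v : Matrix (Fin d) (Fin d) D.A, u * v = 1 → v * u = 1 →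
      val D.T (wU D.δ D.σ n u v) = fin D.T (wU D.δ D.σ n u v)) :=
  ⟨fun hN e he => val_eq _ _ fun g hg => (vanish (hG g hg) h d n).1 hN e he,
    fun hN u v huv hvu => val_eq _ _ fun g hg => (vanish (hG g hg) h d n).2 hN u v huv hvu⟩

section connes

variable {K : Type u} [CommRing K] {Ω : Type v} [Ring Ω] [Algebra K Ω]
  {M : Type x} [AddCommGroup M] [Module K M] {𝒜 : ℕ → Submodule K Ω} [GradedAlgebra 𝒜]
  {N : ℕ} {δ : Ω →ₗ[K] Ω} {T : Ω →ₗ[K] M}

open Pool.Agent.H881.LG11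

/-- Cycles in the sense of Connes. -/
theorem tr_of_cyc (hc : Cyc N 𝒜 δ T) (f : M →+ ℚ) :
    Tr N (epsR 𝒜) δ.toAddMonoidHom (f.comp T.toAddMonoidHom) := by
  rcases Nat.even_or_odd N with hN | hN
  · refine Tr.mkE hN (eps_eps 𝒜) (leib 𝒜 hc) hc.sq (del_eps 𝒜 hc) (fun a => ?_)
      (fun a b => congrArg f (tr_even 𝒜 hc hN a b)) (fun a => ?_)
    · have h1 := tr_even 𝒜 hc hN a 1
      rw [mul_one, one_mul] at h1
      exact (congrArg f h1).symm
    · show f (T (δ a)) = 0
      rw [hc.closed, map_zero]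
  · refine Tr.mkO hN (eps_eps 𝒜) (leib 𝒜 hc) hc.sq (del_eps 𝒜 hc) (fun a => ?_)
      (fun a b => congrArg f (tr_odd 𝒜 hc hN a b)) (fun a => ?_)
    · show f (T (eps 𝒜 a)) = -f (T a)
      rw [eps_odd 𝒜 hc hN, map_neg]
    · show f (T (δ a)) = 0
      rw [hc.closed, map_zero]

theorem ev_of_mem {A : Type y} [Ring A] {σ : A →+* MonoidAlgebra Ω G}
    (hσ : ∀ a, σ a ∈ Sg 𝒜 G 0) : Ev (epsR 𝒜) σ := by
  intro a h
  show eps 𝒜 ((σ a).coeff h) = (σ a).coeff h
  rw [eps_mem 𝒜 (hσ a h), pow_zero, one_smul]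

end connes

end Pool.Agent.H416.KM
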