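import Mathlib

set_option autoImplicit false

/-!
# Iterated polynomial loops of cycles: definitions
-/

namespace Pool.Agent.H416.KM

open Polynomial

universe v w y

/-- Data of a cycle over a ring with a map to a group ring: a ring `A` with a property `P` of its
elements, a ring `Ω` with maps `ε`, `δ`, a functional `T`, and a map `σ` from `A` to the group ring of
`Ω`. -/
structure Dat (G : Type w) [Group G] where
  /-- the ring -/
  A : Type y
  [rA : Ring A]
  /-- the distinguished elements of `A` -/
  P : A → Prop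
  /-- the ring of forms -/
  Ω : Type v
  [rΩ : Ring Ω]
  /-- the parity -/
  ε : Ω → Ω
  /-- the differential -/
  δ : Ω → Ω
  /-- the trace -/
  T : Ω → ℚ
  /-- the map from `A` to the group ring of `Ω` -/
  σ : A → MonoidAlgebra Ω G

attribute [instance] Dat.rA Dat.rΩ

section

variable {Ω : Type v} [Ring Ω]

/-- The coefficientwise map of polynomials. -/
noncomputable def cf (φ : Ω → Ω) (p : Polynomial Ω) : Polynomial Ω := p.sum fun n a => monomial n (φ a)

/-- The integral of `T(p)` from `0` to `1`. -/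
noncomputable def integ (T : Ω → ℚ) (p : Polynomial Ω) : ℚ := p.sum fun n a => T a / ((n : ℚ) + 1)

/-- The coefficientwise map of elements of the group ring. -/
noncomputable def cG {G : Type w} [Group G] (φ : Ω → Ω) (x : MonoidAlgebra Ω G) : MonoidAlgebra Ω G :=
  x.coeff.sum fun h r => MonoidAlgebra.single h (φ r)

end

variable {G : Type w} [Group G]

/-- **Loops.** `A` is replaced by the polynomials over `A` in a variable `t`; the distinguished ones have
distinguished coefficients and satisfy `f(0) = f(1)`. The form `a + b dt`, where `a` and `b` are polynomials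
over `Ω`, is represented by the matrix with entries `a`, `b`, `0`, `ε(a)`; so
`(a + b dt) (a' + b' dt) = a a' + (a b' + b ε(a')) dt`. The parity is `ε(a) - ε(b) dt`, the differential
is `δ(a) + (ε(a') + δ(b)) dt`, the trace is the integral of `T(b)` from `0` to `1`, and
`f = ∑ f_n t^n` is mapped to the sum of the `σ(f_n) t^n`. -/
noncomputable def Dat.loop (D : Dat.{v, w, y} G) : Dat.{v, w, y} G where
  A := Polynomial D.A
  P f := (∀ n, D.P (f.coeff n)) ∧ f.eval 0 = f.eval 1
  Ω := Matrix (Fin 2) (Fin 2) (Polynomial D.Ω)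
  ε x := !![cf D.ε (x 0 0), -cf D.ε (x 0 1); 0, cf D.ε (x 1 1)]
  δ x := !![cf D.δ (x 0 0), cf D.ε (derivative (x 0 0)) + cf D.δ (x 0 1); 0, -cf D.δ (x 1 1)]
  T x := integ D.T (x 0 1)
  σ f := f.sum fun n a => (D.σ a).coeff.sum fun h r =>
    MonoidAlgebra.single h (Matrix.diagonal fun _ => monomial n r)

/-- Iterated loops. -/
noncomputable def Dat.loops (D : Dat.{v, w, y} G) (k : ℕ) : Dat.{v, w, y} G := Dat.loop^[k] D

/-- All entries of the matrix are distinguished. -/
def Dat.Mem (D : Dat.{v, w, y} G) {d : ℕ} (e : Matrix (Fin d) (Fin d) D.A) : Prop :=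
  ∀ i j, D.P (e i j)

/-- The matrix `e (δe) ^ (2 n)` over `Ω[G]`. -/
noncomputable def Dat.even (D : Dat.{v, w, y} G) (n : ℕ) {d : ℕ} (e : Matrix (Fin d) (Fin d) D.A) :
    Matrix (Fin d) (Fin d) (MonoidAlgebra D.Ω G) :=
  e.map D.σ * ((e.map D.σ).map (cG D.δ)) ^ (2 * n)

/-- The matrix `(v δu) ^ (2 n + 1)` over `Ω[G]`. -/
noncomputable def Dat.odd (D : Dat.{v, w, y} G) (n : ℕ) {d : ℕ} (u v : Matrix (Fin d) (Fin d) D.A) :
    Matrix (Fin d) (Fin d) (MonoidAlgebra D.Ω G) :=
  (v.map D.σ * (u.map D.σ).map (cG D.δ)) ^ (2 * n + 1)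

/-- The component at the conjugacy class of `g`: the sum of the values of `T` on the coefficients of
the conjugates of `g` on the diagonal. -/
noncomputable def Dat.comp (D : Dat.{v, w, y} G) {d : ℕ}
    (X : Matrix (Fin d) (Fin d) (MonoidAlgebra D.Ω G)) (g : G) : ℚ :=
  ∑ i, ∑ᶠ (h : G) (_ : IsConj g h), D.T ((X i i).coeff h)

/-- The contribution of the elements of finite order. -/
noncomputable def Dat.fin (D : Dat.{v, w, y} G) {d : ℕ}
    (X : Matrix (Fin d) (Fin d) (MonoidAlgebra D.Ω G)) : ℚ :=
  ∑ i, ∑ᶠ (h : G) (_ : IsOfFinOrder h), D.T ((X i i).coeff h)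

/-- The value: the sum over all elements of the group. -/
noncomputable def Dat.val (D : Dat.{v, w, y} G) {d : ℕ}
    (X : Matrix (Fin d) (Fin d) (MonoidAlgebra D.Ω G)) : ℚ :=
  ∑ i, ∑ᶠ h : G, D.T ((X i i).coeff h)

/-- The components at `g` of the values of `T` vanish: for all idempotent matrices (if `N` is even) and
for all invertible matrices (if `N` is odd) over the ring of the distinguished elements of `A`. -/
def Dat.Vanish (D : Dat.{v, w, y} G) (N : ℕ) (g : G) : Prop :=
  ∀ d n : ℕ,
    (Even N → ∀ e : Matrix (Fin d) (Fin d) D.A, D.Mem e → e * e = e → D.comp (D.even n e) g = 0) ∧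
    (Odd N → ∀ u v : Matrix (Fin d) (Fin d) D.A, D.Mem u → D.Mem v → u * v = 1 → v * u = 1 →
      D.comp (D.odd n u v) g = 0)

/-- The values of `T` are the contributions of the elements of finite order: for all idempotent
matrices (if `N` is even) and for all invertible matrices (if `N` is odd) over the ring of the
distinguished elements of `A`. -/
def Dat.OnlyFinite (D : Dat.{v, w, y} G) (N : ℕ) : Prop :=
  ∀ d n : ℕ,
    (Even N → ∀ e : Matrix (Fin d) (Fin d) D.A, D.Mem e → e * e = e →
      D.val (D.even n e) = D.fin (D.even n e)) ∧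
    (Odd N → ∀ u v : Matrix (Fin d) (Fin d) D.A, D.Mem u → D.Mem v → u * v = 1 → v * u = 1 →
      D.val (D.odd n u v) = D.fin (D.odd n u v))

end Pool.Agent.H416.KM
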