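import Pool.Agent.H416.KM.Sim

set_option autoImplicit false

/-!
# The components of the Chern characters of all degrees at good elements
-/

namespace Pool.Agent.H416.KM

open Pool.Agent.H416.LG (dG dG_coeff Good)

universe u v w x y z

variable {G : Type w} [Group G] {D : Datum.{v, w, y} G} {E : Dat.{v, w, y} G} (S : Sim D E)

/-- The map of the group rings. -/
noncomputable def Sim.Φ : MonoidAlgebra D.Ω G →+* MonoidAlgebra E.Ω G := MonoidAlgebra.mapRingHom G S.φ

theorem Sim.Φ_coeff (x : MonoidAlgebra D.Ω G) (h : G) : (S.Φ x).coeff h = S.φ (x.coeff h) :=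
  MonoidAlgebra.coeff_mapRingHom _ _ _

theorem Sim.cGδ (x : MonoidAlgebra D.Ω G) : cG E.δ (S.Φ x) = S.Φ (dG G D.δ x) := by
  apply MonoidAlgebra.coeff_injective
  refine Finsupp.ext fun h => ?_
  rw [cG_coeff S.δ0, S.Φ_coeff, S.Φ_coeff, S.hδ, dG_coeff]

theorem Sim.mapσ {d : ℕ} (e : Matrix (Fin d) (Fin d) D.A) :
    (e.map S.ι).map E.σ = (e.map D.σ).map S.Φ := by
  refine Matrix.ext fun i j => ?_
  exact S.hσ (e i j)

theorem Sim.mapδ {d : ℕ} (X : Matrix (Fin d) (Fin d) (MonoidAlgebra D.Ω G)) :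
    (X.map S.Φ).map (cG E.δ) = (X.map (dG G D.δ)).map S.Φ := by
  refine Matrix.ext fun i j => ?_
  exact S.cGδ (X i j)

theorem Sim.map_pow {d : ℕ} (X : Matrix (Fin d) (Fin d) (MonoidAlgebra D.Ω G)) (n : ℕ) :
    (X.map S.Φ) ^ n = (X ^ n).map S.Φ := (_root_.map_pow (S.Φ.mapMatrix) X n).symm

theorem Sim.even {d : ℕ} (n : ℕ) (e : Matrix (Fin d) (Fin d) D.A) :
    E.even n (e.map S.ι) = (wE D.δ D.σ n e).map S.Φ := by
  unfold Dat.even wE
  rw [S.mapσ, S.mapδ, S.map_pow, Matrix.map_mul]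

theorem Sim.odd {d : ℕ} (n : ℕ) (u v : Matrix (Fin d) (Fin d) D.A) :
    E.odd n (u.map S.ι) (v.map S.ι) = (wU D.δ D.σ n u v).map S.Φ := by
  unfold Dat.odd wU
  rw [S.mapσ, S.mapσ, S.mapδ, ← Matrix.map_mul, S.map_pow]

theorem Sim.comp {d : ℕ} (X : Matrix (Fin d) (Fin d) (MonoidAlgebra D.Ω G)) (g : G) :
    E.comp (X.map S.Φ) g = cp D.T X g := by
  unfold Dat.comp cp
  refine Finset.sum_congr rfl fun i _ => finsum_congr fun h => finsum_congr fun _ => ?_
  rw [Matrix.map_apply, S.Φ_coeff, S.hT]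

theorem Sim.fin {d : ℕ} (X : Matrix (Fin d) (Fin d) (MonoidAlgebra D.Ω G)) :
    E.fin (X.map S.Φ) = Pool.Agent.H416.KM.fin D.T X := by
  unfold Dat.fin Pool.Agent.H416.KM.fin
  refine Finset.sum_congr rfl fun i _ => finsum_congr fun h => finsum_congr fun _ => ?_
  rw [Matrix.map_apply, S.Φ_coeff, S.hT]

theorem Sim.val {d : ℕ} (X : Matrix (Fin d) (Fin d) (MonoidAlgebra D.Ω G)) :
    E.val (X.map S.Φ) = Pool.Agent.H416.KM.val D.T X := by
  unfold Dat.val Pool.Agent.H416.KM.val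
  refine Finset.sum_congr rfl fun i _ => finsum_congr fun h => ?_
  rw [Matrix.map_apply, S.Φ_coeff, S.hT]

theorem Sim.lift {d : ℕ} (e : Matrix (Fin d) (Fin d) E.A) (he : E.Mem e) :
    ∃ e0 : Matrix (Fin d) (Fin d) D.A, e0.map S.ι = e := by
  choose f hf using fun i j => S.mem (e i j) (he i j)
  exact ⟨Matrix.of f, Matrix.ext fun i j => hf i j⟩

theorem Sim.inj_mul {d : ℕ} {a b c : Matrix (Fin d) (Fin d) D.A}
    (h : a.map S.ι * b.map S.ι = c.map S.ι) : a * b = c := by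
  rw [← Matrix.map_mul] at h
  refine Matrix.ext fun i j => S.inj ?_
  exact congrFun (congrFun h i) j

theorem Sim.inj_one {d : ℕ} {a b : Matrix (Fin d) (Fin d) D.A}
    (h : a.map S.ι * b.map S.ι = 1) : a * b = 1 := by
  apply S.inj_mul
  rw [h]
  exact (Matrix.map_one S.ι (map_zero _) (map_one _)).symm

theorem Sim.vanish (S : Sim D E) {N : ℕ} {g : G} (h : Vanish N D g) : E.Vanish N g := by
  intro d n
  refine ⟨fun hN e he hee => ?_, fun hN u v hu hv huv hvu => ?_⟩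
  · obtain ⟨e, rfl⟩ := S.lift e he
    rw [S.even, S.comp]
    exact (h d n).1 hN e (S.inj_mul hee)
  · obtain ⟨u, rfl⟩ := S.lift u hu
    obtain ⟨v, rfl⟩ := S.lift v hv
    rw [S.odd, S.comp]
    exact (h d n).2 hN u v (S.inj_one huv) (S.inj_one hvu)

theorem Sim.onlyFinite (S : Sim D E) {N : ℕ} (hG : ∀ g : G, ¬ IsOfFinOrder g → Good.{w, z} G g)
    (h : D.IsCycle N) : E.OnlyFinite N := by
  intro d n
  refine ⟨fun hN e he hee => ?_, fun hN u v hu hv huv hvu => ?_⟩
  · obtain ⟨e, rfl⟩ := S.lift e he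
    rw [S.even, S.val, S.fin]
    exact (values hG h d n).1 hN e (S.inj_mul hee)
  · obtain ⟨u, rfl⟩ := S.lift u hu
    obtain ⟨v, rfl⟩ := S.lift v hv
    rw [S.odd, S.val, S.fin]
    exact (values hG h d n).2 hN u v (S.inj_one huv) (S.inj_one hvu)

/-- **All degrees**: the components at good elements vanish for all iterated loops. -/
theorem vanish_loops (S : Sim D E) {N : ℕ} (h : D.IsCycle N) {g : G} (hg : Good.{w, z} G g) (k : ℕ) :
    (E.loops k).Vanish (N + k) g :=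
  (S.loops h k).vanish (vanish hg (h.loops k))

theorem onlyFinite_loops (S : Sim D E) {N : ℕ} (h : D.IsCycle N)
    (hG : ∀ g : G, ¬ IsOfFinOrder g → Good.{w, z} G g) (k : ℕ) :
    (E.loops k).OnlyFinite (N + k) :=
  (S.loops h k).onlyFinite hG (h.loops k)

/-- The data with unbundled maps. -/
noncomputable def Datum.dat (D : Datum.{v, w, y} G) : Dat.{v, w, y} G where
  A := D.A
  P _ := True
  Ω := D.Ω
  ε := D.ε
  δ := D.δ
  T := D.T
  σ := D.σ

/-- The identical comparison. -/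
noncomputable def Datum.sim (D : Datum.{v, w, y} G) : Sim D D.dat where
  φ := RingHom.id D.Ω
  ι := RingHom.id D.A
  inj := Function.injective_id
  mem a _ := ⟨a, rfl⟩
  hε _ := rfl
  hδ _ := rfl
  hT _ := rfl
  hσ a := by
    show D.σ a = MonoidAlgebra.mapRingHom G (RingHom.id D.Ω) (D.σ a)
    apply MonoidAlgebra.coeff_injective
    refine Finsupp.ext fun h => ?_
    rw [MonoidAlgebra.coeff_mapRingHom]
    rfl

end Pool.Agent.H416.KM
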