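import Pool.Agent.H139.LG.Bd
import Pool.Agent.H416.LG.Fin2

set_option autoImplicit false

/-!
# Differential rings with a closed graded trace, and loops
-/

namespace Pool.Agent.H416.KM

open Polynomial
open Pool.Agent.H416.LG (PC PO)
open Pool.Agent.H139.LG13

universe u v w x y

/-- `T` is a closed graded trace of dimension `N` on the differential ring `(Ω, ε, δ)`. Here `Ω` is graded
by the parity: `ε` is the ring automorphism which is `1` on the even and `-1` on the odd elements. The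
trace property `T (a b) = (-1) ^ (|a| |b|) T (b a)` is written as `T (a b) = T (b ε(a))` if `N` is even
and `T (a b) = T (b a)` if `N` is odd (`T` vanishes on the elements of parity `N + 1`). -/
structure Tr (N : ℕ) {Ω : Type v} [Ring Ω] (ε : Ω →+* Ω) (δ : Ω →+ Ω) (T : Ω →+ ℚ) : Prop where
  ee : ∀ a, ε (ε a) = a
  leib : ∀ a b, δ (a * b) = δ a * b + ε a * δ b
  dd : ∀ a, δ (δ a) = 0
  de : ∀ a, δ (ε a) = -ε (δ a)
  par : ∀ a, T (ε a) = (-1) ^ N * T a
  tr : ∀ a b, T (a * b) = T (b * (ε : Ω → Ω)^[N + 1] a)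
  cl : ∀ a, T (δ a) = 0

section basic

variable {Ω : Type v} [Ring Ω] {ε : Ω →+* Ω} {δ : Ω →+ Ω} {T : Ω →+ ℚ} {N : ℕ}

theorem iter_even (h : ∀ a, ε (ε a) = a) {n : ℕ} (hn : Even n) (a : Ω) : (ε : Ω → Ω)^[n] a = a := by
  obtain ⟨m, rfl⟩ := hn
  induction m with
  | zero => rfl
  | succ m ih =>
    have h1 : m + 1 + (m + 1) = (m + m) + 2 := by ring
    rw [h1, Function.iterate_add_apply]
    show (ε : Ω → Ω)^[m + m] (ε (ε a)) = a
    rw [h, ih]

theorem iter_odd (h : ∀ a, ε (ε a) = a) {n : ℕ} (hn : Odd n) (a : Ω) :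
    (ε : Ω → Ω)^[n] a = ε a := by
  obtain ⟨m, rfl⟩ := hn
  exact iter_even h (even_two_mul m) (ε a)

theorem Tr.trE (h : Tr N ε δ T) (hN : Even N) (a b : Ω) : T (a * b) = T (b * ε a) := by
  rw [h.tr, iter_odd h.ee hN.add_one]

theorem Tr.trO (h : Tr N ε δ T) (hN : Odd N) (a b : Ω) : T (a * b) = T (b * a) := by
  rw [h.tr, iter_even h.ee hN.add_one]

theorem Tr.parE (h : Tr N ε δ T) (hN : Even N) (a : Ω) : T (ε a) = T a := by
  rw [h.par, hN.neg_one_pow, one_mul]

theorem Tr.parO (h : Tr N ε δ T) (hN : Odd N) (a : Ω) : T (ε a) = -T a := by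
  rw [h.par, hN.neg_one_pow, neg_one_mul]

theorem Tr.pc (h : Tr N ε δ T) (hN : Even N) : PC ε δ T where
  ee := h.ee
  leib := h.leib
  dd := h.dd
  de := h.de
  tr a b ha := by rw [h.trE hN, ha]
  tro a b ha hb := by rw [h.trE hN, ha, mul_neg, map_neg]
  cl := h.cl

theorem Tr.po (h : Tr N ε δ T) (hN : Odd N) : PO ε δ T where
  ee := h.ee
  leib := h.leib
  dd := h.dd
  de := h.de
  tr := h.trO hN
  odd := h.parO hN
  cl := h.cl

/-- The zero trace. -/
theorem Tr.zero (h : Tr N ε δ T) : PO ε δ (0 : Ω →+ ℚ) where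
  ee := h.ee
  leib := h.leib
  dd := h.dd
  de := h.de
  tr _ _ := rfl
  odd _ := by rw [AddMonoidHom.zero_apply, AddMonoidHom.zero_apply, neg_zero]
  cl _ := rfl

/-- Constructor: even dimension. -/
theorem Tr.mkE (hN : Even N) (ee : ∀ a, ε (ε a) = a)
    (leib : ∀ a b, δ (a * b) = δ a * b + ε a * δ b) (dd : ∀ a, δ (δ a) = 0)
    (de : ∀ a, δ (ε a) = -ε (δ a)) (par : ∀ a, T (ε a) = T a)
    (tr : ∀ a b, T (a * b) = T (b * ε a)) (cl : ∀ a, T (δ a) = 0) : Tr N ε δ T :=
  ⟨ee, leib, dd, de, fun a => by rw [par, hN.neg_one_pow, one_mul],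
    fun a b => by rw [tr, iter_odd ee hN.add_one], cl⟩

/-- Constructor: odd dimension. -/
theorem Tr.mkO (hN : Odd N) (ee : ∀ a, ε (ε a) = a)
    (leib : ∀ a b, δ (a * b) = δ a * b + ε a * δ b) (dd : ∀ a, δ (δ a) = 0)
    (de : ∀ a, δ (ε a) = -ε (δ a)) (par : ∀ a, T (ε a) = -T a)
    (tr : ∀ a b, T (a * b) = T (b * a)) (cl : ∀ a, T (δ a) = 0) : Tr N ε δ T :=
  ⟨ee, leib, dd, de, fun a => by rw [par, hN.neg_one_pow, neg_one_mul],
    fun a b => by rw [tr, iter_even ee hN.add_one], cl⟩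

end basic

section II

variable {Ω : Type v} [Ring Ω] {T : Ω →+ ℚ} {ε : Ω →+* Ω}

theorem II_tw (h : ∀ a b, T (a * b) = T (b * ε a)) (p q : Polynomial Ω) :
    II T (p * q) = II T (q * p.map ε) := by
  induction p using Polynomial.induction_on' with
  | add p p' hp hp' => rw [add_mul, Polynomial.map_add, mul_add, map_add, map_add, hp, hp']
  | monomial n a =>
    induction q using Polynomial.induction_on' with
    | add q q' hq hq' => rw [add_mul, mul_add, map_add, map_add, hq, hq']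
    | monomial m b =>
      rw [map_monomial, monomial_mul_monomial, monomial_mul_monomial, II_mon, II_mon, h,
        add_comm n m]

theorem II_ev (h : ∀ a, T (ε a) = T a) (p : Polynomial Ω) :
    II T (p.map ε) = II T p := by
  induction p using Polynomial.induction_on' with
  | add p p' hp hp' => rw [Polynomial.map_add, map_add, map_add, hp, hp']
  | monomial n a => rw [map_monomial, II_mon, II_mon, h]

end II

/-- **Loops.** The subring of the forms on the interval `[0, 1]` with values in `Ω`, polynomial in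
`t` and `dt`, which have the same values at `0` and at `1`. -/
noncomputable def LL {Ω : Type v} [Ring Ω] (ε : Ω →+* Ω) : Subring (DD ε) :=
  RingHom.eqLocus f0 f1

section LL

variable {Ω : Type v} [Ring Ω] {ε : Ω →+* Ω}

theorem mem_LL {x : DD ε} : x ∈ LL ε ↔ f0 x = f1 x := Iff.rfl

/-- The ring of the forms on the interval with the same values at `0` and `1`. -/
def LF (ε : Ω →+* Ω) : Type v := LL ε

noncomputable instance instRingLF (ε : Ω →+* Ω) : Ring (LF ε) := (LL ε).toRing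

/-- The parity on the loops. -/
noncomputable def epL (ε : Ω →+* Ω) : LF ε →+* LF ε where
  toFun x := ⟨DD.ep x.1, by rw [mem_LL, f0_ep, f1_ep, mem_LL.1 x.2]⟩
  map_one' := Subtype.ext (map_one _)
  map_mul' _ _ := Subtype.ext (map_mul _ _ _)
  map_zero' := Subtype.ext (map_zero _)
  map_add' _ _ := Subtype.ext (map_add _ _ _)

/-- The differential on the loops: `δ (a + b dt) = δ a + (± a' + δ b) dt`. -/
noncomputable def dlL (ε : Ω →+* Ω) (δ : Ω →+ Ω) : LF ε →+ LF ε where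
  toFun x := ⟨DD.dl δ x.1, by rw [mem_LL, f0_dl, f1_dl, mem_LL.1 x.2]⟩
  map_zero' := Subtype.ext (map_zero _)
  map_add' _ _ := Subtype.ext (map_add _ _ _)

/-- The trace on the loops: `a + b dt ↦ ∫ T (b) dt`. -/
noncomputable def TL (ε : Ω →+* Ω) (T : Ω →+ ℚ) : LF ε →+ ℚ where
  toFun x := DD.TT T x.1
  map_zero' := map_zero (DD.TT T)
  map_add' _ _ := map_add (DD.TT T) _ _

variable {δ : Ω →+ Ω} {T : Ω →+ ℚ} {N : ℕ}

theorem TL_cl (h : Tr N ε δ T) (x : LF ε) : TL ε T (dlL ε δ x) = 0 := by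
  show DD.TT T (DD.dl δ x.1) = 0
  have hx : e0 x.1.a = e1 x.1.a := x.2
  rw [DD.TT_eq, DD.dl_b, map_add, II_cl h.cl, add_zero]
  rcases Nat.even_or_odd N with hN | hN
  · rw [II_ev (h.parE hN), II_der, hx, sub_self]
  · rw [II_odd (h.parO hN), II_der, hx, sub_self, neg_zero]

/-- **The trace on the loops** is a closed graded trace of dimension `N + 1`. -/
theorem Tr.loop (h : Tr N ε δ T) : Tr (N + 1) (epL ε) (dlL ε δ) (TL ε T) := by
  have ee : ∀ x : LF ε, epL ε (epL ε x) = x := fun x => Subtype.ext (DD.ee h.zero _)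
  have leib : ∀ x y : LF ε, dlL ε δ (x * y) = dlL ε δ x * y + epL ε x * dlL ε δ y :=
    fun x y => Subtype.ext (DD.leib h.zero _ _)
  have dd : ∀ x : LF ε, dlL ε δ (dlL ε δ x) = 0 := fun x => Subtype.ext (DD.dd h.zero _)
  have de : ∀ x : LF ε, dlL ε δ (epL ε x) = -epL ε (dlL ε δ x) := fun x =>
    Subtype.ext (DD.de h.zero _)
  rcases Nat.even_or_odd N with hN | hN
  · refine Tr.mkO hN.add_one ee leib dd de (fun x => ?_) (fun x y => ?_) (TL_cl h)
    · show DD.TT T (DD.ep x.1) = -DD.TT T x.1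
      rw [DD.TT_eq, DD.TT_eq, DD.ep_b, map_neg, II_ev (h.parE hN)]
    · show DD.TT T (x.1 * y.1) = DD.TT T (y.1 * x.1)
      rw [DD.TT_eq, DD.TT_eq, DD.mul_b, DD.mul_b, map_add, map_add, II_tw (h.trE hN) x.1.a,
        II_tw (h.trE hN) y.1.a, add_comm]
  · refine Tr.mkE hN.add_one ee leib dd de (fun x => ?_) (fun x y => ?_) (TL_cl h)
    · show DD.TT T (DD.ep x.1) = DD.TT T x.1
      rw [DD.TT_eq, DD.TT_eq, DD.ep_b, map_neg, II_odd (h.parO hN), neg_neg]
    · show DD.TT T (x.1 * y.1) = DD.TT T (y.1 * DD.ep x.1)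
      rw [DD.TT_eq, DD.TT_eq, DD.mul_b, DD.mul_b, DD.ep_a, DD.ep_b, map_ee h.ee, map_add, map_add,
        II_comm (h.trO hN) x.1.a, add_comm]
      congr 1
      have h1 := II_odd (h.parO hN) (y.1.a * x.1.b.map ε)
      rw [Polynomial.map_mul, map_ee h.ee] at h1
      rw [II_comm (h.trO hN) x.1.b, h1, mul_neg, map_neg]

end LL

end Pool.Agent.H416.KM
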