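import Pool.Agent.H416.KM.Loop

set_option autoImplicit false

/-!
# Matrices over differential rings with a closed graded trace: the components at good elements
-/

namespace Pool.Agent.H416.KM

open Finset MonoidAlgebra
open Pool.Agent.H416.LG (PC PO Van dG dG_coeff rho rho_mg mg mg_coeff mg_mul mg_one mg_pow mg_dh
  eT_mg even_of_van odd_of_van)
open Pool.Agent.V11187.DG (eT dg eT_zero eT_add eT_single compT compT_eT dh dh_coeff au au_dh T_auE)
open Pool.Agent.H416.HC (finT sum_rest)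

universe u v w x y

variable {Ω : Type v} [Ring Ω] {ε : Ω →+* Ω} {δ : Ω →+ Ω} {T : Ω →+ ℚ} {N : ℕ}

/-- The trace on matrices. -/
noncomputable def TM (T : Ω →+ ℚ) (d : ℕ) : Matrix (Fin d) (Fin d) Ω →+ ℚ :=
  T.comp (Matrix.traceAddMonoidHom (Fin d) Ω)

theorem TM_apply (T : Ω →+ ℚ) (d : ℕ) (X : Matrix (Fin d) (Fin d) Ω) :
    TM T d X = ∑ i, T (X i i) := by
  show T (Matrix.trace X) = _
  rw [Matrix.trace, map_sum]
  rfl

theorem iter_map (ε : Ω →+* Ω) (d n : ℕ) (X : Matrix (Fin d) (Fin d) Ω) (i j : Fin d) :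
    ((ε.mapMatrix : Matrix (Fin d) (Fin d) Ω →+* _) : Matrix (Fin d) (Fin d) Ω → _)^[n] X i j =
      (ε : Ω → Ω)^[n] (X i j) := by
  induction n generalizing X with
  | zero => rfl
  | succ n ih => exact ih (ε.mapMatrix X)

/-- Matrices. -/
theorem Tr.mat (h : Tr N ε δ T) (d : ℕ) :
    Tr N (ε.mapMatrix : Matrix (Fin d) (Fin d) Ω →+* _) (δ.mapMatrix) (TM T d) where
  ee X := Matrix.ext fun i j => h.ee _
  leib X Y := by
    refine Matrix.ext fun i j => ?_
    show δ ((X * Y) i j) = (X.map δ * Y + X.map ε * Y.map δ) i j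
    rw [Matrix.add_apply, Matrix.mul_apply, Matrix.mul_apply, Matrix.mul_apply, map_sum,
      ← Finset.sum_add_distrib]
    exact Finset.sum_congr rfl fun k _ => h.leib _ _
  dd X := Matrix.ext fun i j => h.dd _
  de X := Matrix.ext fun i j => h.de _
  par X := by
    rw [TM_apply, TM_apply, Finset.mul_sum]
    exact Finset.sum_congr rfl fun k _ => h.par _
  tr X Y := by
    rw [TM_apply, TM_apply]
    have h1 : ∀ (X Y : Matrix (Fin d) (Fin d) Ω), ∑ i, T ((X * Y) i i) =
        ∑ i, ∑ k, T (X i k * Y k i) := by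
      intro X Y
      refine Finset.sum_congr rfl fun i _ => ?_
      rw [Matrix.mul_apply, map_sum]
    rw [h1, h1, Finset.sum_comm]
    refine Finset.sum_congr rfl fun i _ => Finset.sum_congr rfl fun k _ => ?_
    rw [iter_map]
    exact h.tr _ _
  cl X := by
    rw [TM_apply]
    exact Finset.sum_eq_zero fun k _ => h.cl _

variable {G : Type w} [Group G] {A : Type y} [Ring A]

/-- The matrix `e (δe) ^ (2 n)` over `Ω[G]`. -/
noncomputable def wE (δ : Ω →+ Ω) (σ : A →+* MonoidAlgebra Ω G) (n : ℕ) {d : ℕ}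
    (e : Matrix (Fin d) (Fin d) A) : Matrix (Fin d) (Fin d) (MonoidAlgebra Ω G) :=
  e.map σ * ((e.map σ).map (dG G δ)) ^ (2 * n)

/-- The matrix `(v δu) ^ (2 n + 1)` over `Ω[G]`. -/
noncomputable def wU (δ : Ω →+ Ω) (σ : A →+* MonoidAlgebra Ω G) (n : ℕ) {d : ℕ}
    (u v : Matrix (Fin d) (Fin d) A) : Matrix (Fin d) (Fin d) (MonoidAlgebra Ω G) :=
  (v.map σ * (u.map σ).map (dG G δ)) ^ (2 * n + 1)

/-- The component at the conjugacy class of `g`: the sum of the values of `T` on the coefficients of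
the conjugates of `g` on the diagonal. -/
noncomputable def cp (T : Ω →+ ℚ) {d : ℕ} (X : Matrix (Fin d) (Fin d) (MonoidAlgebra Ω G)) (g : G) :
    ℚ := ∑ i, ∑ᶠ (h : G) (_ : IsConj g h), T ((X i i).coeff h)

/-- The contribution of the elements of finite order. -/
noncomputable def fin (T : Ω →+ ℚ) {d : ℕ} (X : Matrix (Fin d) (Fin d) (MonoidAlgebra Ω G)) : ℚ :=
  ∑ i, ∑ᶠ (h : G) (_ : IsOfFinOrder h), T ((X i i).coeff h)

/-- The value: the sum over all elements of the group. -/
noncomputable def val (T : Ω →+ ℚ) {d : ℕ} (X : Matrix (Fin d) (Fin d) (MonoidAlgebra Ω G)) : ℚ :=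
  ∑ i, ∑ᶠ h : G, T ((X i i).coeff h)

theorem mg_dG (δ : Ω →+ Ω) {d : ℕ} (X : Matrix (Fin d) (Fin d) (MonoidAlgebra Ω G)) :
    mg (X.map (dG G δ)) = dG G δ.mapMatrix (mg X) := by
  apply coeff_injective
  ext h i j
  rw [mg_coeff, dG_coeff, mg_coeff]
  exact dG_coeff δ _ _

theorem eT_cp (T : Ω →+ ℚ) (g : G) {d : ℕ} (X : Matrix (Fin d) (Fin d) (MonoidAlgebra Ω G)) :
    eT (TM T d) (dg g) (mg X) = cp T X g :=
  eT_mg (K := ℤ) T.toIntLinearMap (AddMonoidHom.id ℚ) g X

variable {σ : A →+* MonoidAlgebra Ω G}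

/-- The coefficients of the image of `σ` are even. -/
def Ev (ε : Ω →+* Ω) (σ : A →+* MonoidAlgebra Ω G) : Prop :=
  ∀ a h, ε ((σ a).coeff h) = (σ a).coeff h

theorem mg_even (hσ : Ev ε σ) {d : ℕ} (X : Matrix (Fin d) (Fin d) A) (h : G) :
    (ε.mapMatrix : Matrix (Fin d) (Fin d) Ω →+* _) ((mg (X.map σ)).coeff h) =
      (mg (X.map σ)).coeff h := by
  rw [mg_coeff]
  exact Matrix.ext fun i j => hσ _ h

/-- Idempotent matrices. -/
theorem cp_even {g : G} (hg : Van.{v, w} G g) (h : Tr N ε δ T) (hN : Even N) (hσ : Ev ε σ) {d : ℕ}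
    (e : Matrix (Fin d) (Fin d) A) (he : e * e = e) (n : ℕ) : cp T (wE δ σ n e) g = 0 := by
  have h1 := even_of_van Pool.Agent.H878.LG10.LG10_holds hg _ _ _ ((h.mat d).pc hN) (mg (e.map σ))
    (by
      rw [← mg_mul]
      congr 1
      exact ((σ.mapMatrix : Matrix (Fin d) (Fin d) A →+* _).map_mul e e).symm.trans
        (congrArg (σ.mapMatrix : Matrix (Fin d) (Fin d) A →+* _) he))
    (mg_even hσ e) n
  rw [← mg_dG, ← mg_pow, ← mg_mul, eT_cp] at h1
  exact h1

/-- Invertible matrices. -/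
theorem cp_odd {g : G} (hg : Van.{v, w} G g) (h : Tr N ε δ T) (hN : Odd N) (hσ : Ev ε σ) {d : ℕ}
    (u v : Matrix (Fin d) (Fin d) A) (huv : u * v = 1) (hvu : v * u = 1) (n : ℕ) :
    cp T (wU δ σ n u v) g = 0 := by
  have h1 : ∀ a b : Matrix (Fin d) (Fin d) A, a * b = 1 → a.map σ * b.map σ = 1 := by
    intro a b hab
    rw [← Matrix.map_mul, hab]
    exact Matrix.map_one σ (map_zero σ) (map_one σ)
  have h2 := odd_of_van hg _ _ _ ((h.mat d).po hN) (mg (v.map σ)) (mg (u.map σ))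
    (by rw [← mg_mul, h1 v u hvu, mg_one]) (by rw [← mg_mul, h1 u v huv, mg_one])
    (mg_even hσ v) (mg_even hσ u) n
  rw [← mg_dG, ← mg_mul, ← mg_pow, eT_cp] at h2
  exact h2

/-- If the components at the elements of infinite order vanish, the value is the contribution of the
elements of finite order. -/
theorem val_eq (T : Ω →+ ℚ) {d : ℕ} (X : Matrix (Fin d) (Fin d) (MonoidAlgebra Ω G))
    (h : ∀ g : G, ¬ IsOfFinOrder g → cp T X g = 0) : val T X = fin T X := by
  have h1 := sum_rest (K := ℤ) (T := T.toIntLinearMap) (G := G) {()} (fun _ => 1)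
    (fun _ : Unit => X) (by
      intro g hg
      rw [Finset.sum_singleton, one_smul]
      exact h g hg)
  rw [Finset.sum_singleton, Finset.sum_singleton, one_smul, one_smul] at h1
  have h2 : val T X = ∑ i, eT T.toIntLinearMap.toAddMonoidHom (fun _ => 1) (X i i) := by
    unfold val
    refine Finset.sum_congr rfl fun i _ => ?_
    unfold eT
    rw [finsum_eq_sum_of_support_subset (s := (X i i).coeff.support)]
    · refine Finset.sum_congr rfl fun h _ => ?_
      exact (one_zsmul (T ((X i i).coeff h))).symm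
    · intro h hh
      rw [Function.mem_support] at hh
      rw [Finset.mem_coe, Finsupp.mem_support_iff]
      intro h0
      apply hh
      rw [h0, map_zero]
  rw [h2, h1]
  rfl

end Pool.Agent.H416.KM
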