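import Pool.Agent.H416.KM.Mat

set_option autoImplicit false

/-!
# Polynomial loops in a ring with a map to a group ring
-/

namespace Pool.Agent.H416.KM

open Polynomial
open Pool.Agent.H139.LG13

universe u v w x y

/-- **Polynomial loops** in a ring `A`: the polynomials `f` over `A` in a central variable with
`f(0) = f(1)`. -/
noncomputable def LR (A : Type y) [Ring A] : Subring (Polynomial A) :=
  RingHom.eqLocus e0 e1

/-- The ring of the polynomials `f` with `f(0) = f(1)`. -/
def LP (A : Type y) [Ring A] : Type y := LR A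

noncomputable instance instRingLP (A : Type y) [Ring A] : Ring (LP A) := (LR A).toRing

section D

variable {Ω : Type v} [Ring Ω] {ε : Ω →+* Ω}

/-- The polynomials as forms of degree zero on the interval. -/
noncomputable def toD (ε : Ω →+* Ω) : Polynomial Ω →+* DD ε where
  toFun p := ⟨p, 0⟩
  map_one' := rfl
  map_mul' p q := DD.ext rfl (by
    show (0 : Polynomial Ω) = p * 0 + 0 * q.map ε
    rw [mul_zero, zero_mul, add_zero])
  map_zero' := rfl
  map_add' p q := DD.ext rfl (by
    show (0 : Polynomial Ω) = 0 + 0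
    rw [add_zero])

theorem f0_toD (p : Polynomial Ω) : f0 (toD ε p) = e0 p := rfl
theorem f1_toD (p : Polynomial Ω) : f1 (toD ε p) = e1 p := rfl

theorem ep_toD (p : Polynomial Ω) : DD.ep (toD ε p) = toD ε (p.map ε) :=
  DD.ext rfl (by
    show -(0 : Polynomial Ω).map ε = 0
    rw [Polynomial.map_zero, neg_zero])

end D

section phi

variable {Ω : Type v} [Ring Ω] {G : Type w} [Group G] {A : Type y} [Ring A]
  (σ : A →+* MonoidAlgebra Ω G)

theorem comm_X (x : MonoidAlgebra Ω G) :
    Commute (MonoidAlgebra.mapRingHom G (C : Ω →+* Polynomial Ω) x)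
      (MonoidAlgebra.single (1 : G) (X : Polynomial Ω)) := by
  induction x using MonoidAlgebra.induction_linear with
  | zero => rw [map_zero]; exact Commute.zero_left _
  | add x y hx hy => rw [map_add]; exact hx.add_left hy
  | single h r =>
    rw [MonoidAlgebra.mapRingHom_single]
    show _ * _ = _ * _
    rw [MonoidAlgebra.single_mul_single, MonoidAlgebra.single_mul_single, mul_one, one_mul,
      ← Polynomial.X_mul_C]

/-- The extension of `σ : A → Ω[G]` to polynomials, with values in `Ω[t][G]`. -/
noncomputable def pol : Polynomial A →+* MonoidAlgebra (Polynomial Ω) G :=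
  eval₂RingHom' ((MonoidAlgebra.mapRingHom G (C : Ω →+* Polynomial Ω)).comp σ)
    (MonoidAlgebra.single (1 : G) (X : Polynomial Ω)) (fun a => comm_X (σ a))

theorem mon_coeff (x : MonoidAlgebra Ω G) (n : ℕ) (h : G) :
    (MonoidAlgebra.mapRingHom G (C : Ω →+* Polynomial Ω) x *
      (MonoidAlgebra.single (1 : G) (X : Polynomial Ω)) ^ n).coeff h = monomial n (x.coeff h) := by
  classical
  rw [MonoidAlgebra.single_pow, one_pow]
  induction x using MonoidAlgebra.induction_linear with
  | zero =>
    rw [map_zero, zero_mul, MonoidAlgebra.coeff_zero, MonoidAlgebra.coeff_zero]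
    exact (map_zero (monomial n)).symm
  | add x y hx hy =>
    rw [map_add, add_mul, MonoidAlgebra.coeff_add, Finsupp.add_apply, hx, hy,
      MonoidAlgebra.coeff_add, Finsupp.add_apply, map_add]
  | single k r =>
    rw [MonoidAlgebra.mapRingHom_single, MonoidAlgebra.single_mul_single, mul_one,
      MonoidAlgebra.coeff_single, MonoidAlgebra.coeff_single, Finsupp.single_apply,
      Finsupp.single_apply]
    split_ifs
    · rw [C_mul_X_pow_eq_monomial]
    · exact (map_zero (monomial n)).symm

theorem pol_mon (n : ℕ) (a : A) (h : G) :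
    (pol σ (monomial n a)).coeff h = monomial n ((σ a).coeff h) := by
  have h1 : pol σ (monomial n a) = MonoidAlgebra.mapRingHom G (C : Ω →+* Polynomial Ω) (σ a) *
      (MonoidAlgebra.single (1 : G) (X : Polynomial Ω)) ^ n :=
    eval₂_monomial ((MonoidAlgebra.mapRingHom G (C : Ω →+* Polynomial Ω)).comp σ)
      (MonoidAlgebra.single (1 : G) (X : Polynomial Ω))
  rw [h1, mon_coeff]

theorem pol_e0 (p : Polynomial A) (h : G) :
    e0 ((pol σ p).coeff h) = (σ (e0 p)).coeff h := by
  induction p using Polynomial.induction_on' with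
  | add p q hp hq =>
    rw [map_add, MonoidAlgebra.coeff_add, Finsupp.add_apply, map_add, hp, hq, map_add, map_add,
      MonoidAlgebra.coeff_add, Finsupp.add_apply]
  | monomial n a =>
    rw [pol_mon, e0_mon, e0_mon]
    rcases n with _ | n
    · rw [pow_zero, pow_zero, mul_one, mul_one]
    · rw [pow_succ, pow_succ, mul_zero, mul_zero, mul_zero, mul_zero, map_zero,
        MonoidAlgebra.coeff_zero]
      rfl

theorem pol_e1 (p : Polynomial A) (h : G) :
    e1 ((pol σ p).coeff h) = (σ (e1 p)).coeff h := by
  induction p using Polynomial.induction_on' with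
  | add p q hp hq =>
    rw [map_add, MonoidAlgebra.coeff_add, Finsupp.add_apply, map_add, hp, hq, map_add, map_add,
      MonoidAlgebra.coeff_add, Finsupp.add_apply]
  | monomial n a => rw [pol_mon, e1_mon, e1_mon]

theorem pol_even {ε : Ω →+* Ω} (hσ : Ev ε σ) (p : Polynomial A) (h : G) :
    ((pol σ p).coeff h).map ε = (pol σ p).coeff h := by
  induction p using Polynomial.induction_on' with
  | add p q hp hq =>
    rw [map_add, MonoidAlgebra.coeff_add, Finsupp.add_apply, Polynomial.map_add, hp, hq]
  | monomial n a => rw [pol_mon, map_monomial, hσ]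

end phi

section lift

variable {Ω : Type v} [Ring Ω] {ε : Ω →+* Ω} {G : Type w} [Group G]

/-- An element of the group ring the coefficients of which have the same values at `0` and `1`. -/
noncomputable def res (X : MonoidAlgebra (DD ε) G) (hX : ∀ h, X.coeff h ∈ LL ε) :
    MonoidAlgebra (LF ε) G :=
  .ofCoeff (Finsupp.onFinset X.coeff.support (fun h => (⟨X.coeff h, hX h⟩ : LF ε)) (by
    intro h hh
    rw [Finsupp.mem_support_iff]
    intro h0
    exact hh (Subtype.ext h0)))

/-- The inclusion of the loops in the forms. -/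
noncomputable def incL (ε : Ω →+* Ω) : LF ε →+* DD ε := (LL ε).subtype

theorem sub_inj : Function.Injective (MonoidAlgebra.mapRingHom G (incL ε)) := by
  intro X Y hXY
  apply MonoidAlgebra.coeff_injective
  refine Finsupp.ext fun h => ?_
  have h1 := congrArg (fun Z : MonoidAlgebra (DD ε) G => Z.coeff h) hXY
  simp only [MonoidAlgebra.coeff_mapRingHom] at h1
  exact Subtype.ext h1

theorem sub_res (X : MonoidAlgebra (DD ε) G) (hX : ∀ h, X.coeff h ∈ LL ε) :
    MonoidAlgebra.mapRingHom G (incL ε) (res X hX) = X := by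
  apply MonoidAlgebra.coeff_injective
  refine Finsupp.ext fun h => ?_
  rw [MonoidAlgebra.coeff_mapRingHom]
  rfl

end lift

section sL

variable {Ω : Type v} [Ring Ω] {ε : Ω →+* Ω} {G : Type w} [Group G] {A : Type y} [Ring A]

/-- The polynomials over `A`, in the group ring of the forms on the interval. -/
noncomputable def pD (ε : Ω →+* Ω) (σ : A →+* MonoidAlgebra Ω G) :
    Polynomial A →+* MonoidAlgebra (DD ε) G :=
  (MonoidAlgebra.mapRingHom G (toD ε)).comp (pol σ)

theorem pD_coeff (σ : A →+* MonoidAlgebra Ω G) (p : Polynomial A) (h : G) :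
    (pD ε σ p).coeff h = toD ε ((pol σ p).coeff h) := MonoidAlgebra.coeff_mapRingHom _ _ _

theorem pD_mem (σ : A →+* MonoidAlgebra Ω G) (p : LP A) (h : G) :
    (pD ε σ p.1).coeff h ∈ LL ε := by
  rw [pD_coeff, mem_LL, f0_toD, f1_toD, pol_e0, pol_e1]
  have hp : e0 p.1 = e1 p.1 := p.2
  rw [hp]

/-- **The map of the loops**: `f = ∑ f_n t^n` is mapped to the element of `LL ε [G]` with coefficient
`∑ (σ f_n)_h t^n` at `h`. -/
noncomputable def sL (ε : Ω →+* Ω) (σ : A →+* MonoidAlgebra Ω G) : LP A →+* MonoidAlgebra (LF ε) G where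
  toFun p := res (pD ε σ p.1) (pD_mem σ p)
  map_one' := sub_inj (by
    rw [sub_res, map_one]
    exact map_one (pD ε σ))
  map_mul' p q := sub_inj (by
    rw [map_mul, sub_res, sub_res, sub_res]
    exact map_mul (pD ε σ) p.1 q.1)
  map_zero' := sub_inj (by
    rw [sub_res, map_zero]
    exact map_zero (pD ε σ))
  map_add' p q := sub_inj (by
    rw [map_add, sub_res, sub_res, sub_res]
    exact map_add (pD ε σ) p.1 q.1)

theorem sL_coeff (σ : A →+* MonoidAlgebra Ω G) (p : LP A) (h : G) :
    ((sL ε σ p).coeff h : LF ε).1 = toD ε ((pol σ p.1).coeff h) := pD_coeff σ p.1 h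

theorem sL_even {σ : A →+* MonoidAlgebra Ω G} (hσ : Ev ε σ) : Ev (epL ε) (sL ε σ) := by
  intro p h
  apply Subtype.ext
  show DD.ep ((sL ε σ p).coeff h : LF ε).1 = ((sL ε σ p).coeff h : LF ε).1
  rw [sL_coeff, ep_toD, pol_even σ hσ]

end sL

end Pool.Agent.H416.KM
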