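import Pool.Agent.H416.KM.Defs
import Pool.Agent.H416.KM.Dat

set_option autoImplicit false

/-!
# Comparison of the two descriptions of the loops
-/

namespace Pool.Agent.H416.KM

open Polynomial
open Pool.Agent.H139.LG13
open Pool.Agent.H416.LG (dG dG_coeff)

universe u v w x y z

section maps

variable {Ω : Type v} [Ring Ω] {Ω' : Type v} [Ring Ω']

theorem cf_coeff {φ : Ω → Ω} (h0 : φ 0 = 0) (p : (Polynomial Ω)) (n : ℕ) :
    (cf φ p).coeff n = φ (p.coeff n) := by
  unfold cf
  rw [Polynomial.sum_def, Polynomial.finsetSum_coeff]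
  by_cases hn : n ∈ p.support
  · rw [Finset.sum_eq_single n]
    · rw [coeff_monomial, if_pos rfl]
    · intro m _ hm
      rw [coeff_monomial, if_neg hm]
    · intro h
      exact absurd hn h
  · rw [notMem_support_iff.1 hn, h0]
    refine Finset.sum_eq_zero fun m hm => ?_
    rw [coeff_monomial, if_neg]
    rintro rfl
    exact hn hm

theorem cG_coeff {G : Type w} [Group G] {φ : Ω → Ω} (h0 : φ 0 = 0) (x : MonoidAlgebra Ω G) (h : G) :
    (cG φ x).coeff h = φ (x.coeff h) := by
  classical
  unfold cG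
  rw [Finsupp.sum, MonoidAlgebra.coeff_sum, Finset.sum_apply']
  by_cases hn : h ∈ x.coeff.support
  · rw [Finset.sum_eq_single h]
    · rw [MonoidAlgebra.coeff_single, Finsupp.single_apply, if_pos rfl]
    · intro m _ hm
      rw [MonoidAlgebra.coeff_single, Finsupp.single_apply, if_neg hm]
    · intro h
      exact absurd hn h
  · rw [Finsupp.notMem_support_iff.1 hn, h0]
    refine Finset.sum_eq_zero fun m hm => ?_
    rw [MonoidAlgebra.coeff_single, Finsupp.single_apply, if_neg]
    rintro rfl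
    exact hn hm

theorem integ_map {T : Ω →+ ℚ} {T' : Ω' → ℚ} {φ : Ω →+* Ω'} (hT : ∀ x, T' (φ x) = T x) (p : (Polynomial Ω)) :
    integ T' (p.map φ) = II T p := by
  have h0 : T' 0 = 0 := by rw [← map_zero φ, hT, map_zero]
  have h1 : II T p = p.sum fun n a => T a / ((n : ℚ) + 1) := rfl
  rw [h1]
  unfold integ
  rw [Polynomial.sum_def, Polynomial.sum_def]
  refine (Finset.sum_subset (fun n hn => ?_) (fun n _ hn => ?_)).trans
    (Finset.sum_congr rfl fun n _ => ?_)
  · rw [mem_support_iff, coeff_map] at hn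
    rw [mem_support_iff]
    intro h
    exact hn (by rw [h, map_zero])
  · rw [notMem_support_iff.1 hn, h0, zero_div]
  · rw [coeff_map, hT]

end maps

section mu

variable {Ω : Type v} [Ring Ω] {ε : Ω →+* Ω}

/-- Forms as matrices. -/
noncomputable def mu (ε : Ω →+* Ω) : DD ε →+* Matrix (Fin 2) (Fin 2) (Polynomial Ω) where
  toFun x := !![x.a, x.b; 0, x.a.map ε]
  map_one' := by
    rw [DD.one_a, DD.one_b, Polynomial.map_one]
    exact Matrix.one_fin_two.symm
  map_mul' x y := by
    rw [DD.mul_a, DD.mul_b, Polynomial.map_mul, Matrix.mul_fin_two]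
    simp
  map_zero' := by
    rw [DD.zero_a, DD.zero_b, Polynomial.map_zero]
    ext i j
    fin_cases i <;> fin_cases j <;> rfl
  map_add' x y := by
    rw [DD.add_a, DD.add_b, Polynomial.map_add]
    ext i j
    fin_cases i <;> fin_cases j <;> simp

theorem mu_apply (x : DD ε) : mu ε x = !![x.a, x.b; 0, x.a.map ε] := rfl

end mu

section sim

variable {G : Type w} [Group G]

theorem sum_single_coeff {Ω Ω' : Type v} [Ring Ω] [Ring Ω'] {F : Ω → Ω'} (h0 : F 0 = 0)
    (x : MonoidAlgebra Ω G) (h : G) :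
    (x.coeff.sum fun h' r => MonoidAlgebra.single h' (F r)).coeff h = F (x.coeff h) := by
  classical
  rw [Finsupp.sum, MonoidAlgebra.coeff_sum, Finset.sum_apply']
  by_cases hn : h ∈ x.coeff.support
  · rw [Finset.sum_eq_single h]
    · rw [MonoidAlgebra.coeff_single, Finsupp.single_apply, if_pos rfl]
    · intro m _ hm
      rw [MonoidAlgebra.coeff_single, Finsupp.single_apply, if_neg hm]
    · intro h
      exact absurd hn h
  · rw [Finsupp.notMem_support_iff.1 hn, h0]
    refine Finset.sum_eq_zero fun m hm => ?_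
    rw [MonoidAlgebra.coeff_single, Finsupp.single_apply, if_neg]
    rintro rfl
    exact hn hm

/-- The coefficients of the map of the loops. -/
theorem loop_sig (E : Dat.{v, w, y} G) (h0 : E.σ 0 = 0) (f : Polynomial E.A) (h : G) :
    ∃ q : Polynomial E.Ω, (E.loop.σ f).coeff h = Matrix.diagonal (fun _ => q) ∧
      ∀ n, q.coeff n = (E.σ (f.coeff n)).coeff h := by
  classical
  refine ⟨∑ n ∈ f.support, monomial n ((E.σ (f.coeff n)).coeff h), ?_, fun n => ?_⟩
  · show ((f.sum fun n a => (E.σ a).coeff.sum fun h r => MonoidAlgebra.single h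
      (Matrix.diagonal fun _ => monomial n r : Matrix (Fin 2) (Fin 2) (Polynomial E.Ω))) :
      MonoidAlgebra (Matrix (Fin 2) (Fin 2) (Polynomial E.Ω)) G).coeff h = _
    rw [Polynomial.sum_def, MonoidAlgebra.coeff_sum, Finset.sum_apply']
    have h1 : ∀ n ∈ f.support, ((E.σ (f.coeff n)).coeff.sum fun h r => MonoidAlgebra.single h
        (Matrix.diagonal fun _ => monomial n r : Matrix (Fin 2) (Fin 2) (Polynomial E.Ω))).coeff h =
        Matrix.diagonal fun _ => monomial n ((E.σ (f.coeff n)).coeff h) := fun n _ =>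
      sum_single_coeff (F := fun r => (Matrix.diagonal fun _ => monomial n r :
        Matrix (Fin 2) (Fin 2) (Polynomial E.Ω))) (by
          rw [map_zero]
          exact Matrix.diagonal_zero) _ _
    rw [Finset.sum_congr rfl h1]
    refine Matrix.ext fun i j => ?_
    have h2 : ∀ X : ℕ → Matrix (Fin 2) (Fin 2) (Polynomial E.Ω),
        (∑ n ∈ f.support, X n) i j = ∑ n ∈ f.support, X n i j := fun X => Matrix.sum_apply i j _ _
    refine (h2 _).trans ?_
    rw [Matrix.diagonal_apply]
    split_ifs with hij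
    · refine Finset.sum_congr rfl fun n _ => ?_
      rw [Matrix.diagonal_apply, if_pos hij]
    · refine Finset.sum_eq_zero fun n _ => ?_
      rw [Matrix.diagonal_apply, if_neg hij]
  · rw [Polynomial.finsetSum_coeff]
    by_cases hn : n ∈ f.support
    · rw [Finset.sum_eq_single n]
      · rw [coeff_monomial, if_pos rfl]
      · intro m _ hm
        rw [coeff_monomial, if_neg hm]
      · intro h
        exact absurd hn h
    · rw [notMem_support_iff.1 hn, h0, MonoidAlgebra.coeff_zero]
      refine Finset.sum_eq_zero fun m hm => ?_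
      rw [coeff_monomial, if_neg]
      rintro rfl
      exact hn hm

/-- A comparison of the two kinds of data. -/
structure Sim (D : Datum.{v, w, y} G) (E : Dat.{v, w, y} G) where
  φ : D.Ω →+* E.Ω
  ι : D.A →+* E.A
  inj : Function.Injective ι
  mem : ∀ a, E.P a → ∃ b, ι b = a
  hε : ∀ x, E.ε (φ x) = φ (D.ε x)
  hδ : ∀ x, E.δ (φ x) = φ (D.δ x)
  hT : ∀ x, E.T (φ x) = D.T x
  hσ : ∀ a, E.σ (ι a) = MonoidAlgebra.mapRingHom G φ (D.σ a)

variable {D : Datum.{v, w, y} G} {E : Dat.{v, w, y} G} (S : Sim D E)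

theorem Sim.ε0 (S : Sim D E) : E.ε 0 = 0 := by
  have h := S.hε 0
  rw [map_zero, map_zero, map_zero] at h
  exact h

theorem Sim.δ0 (S : Sim D E) : E.δ 0 = 0 := by
  have h := S.hδ 0
  rw [map_zero, map_zero, map_zero] at h
  exact h

theorem Sim.σ0 (S : Sim D E) : E.σ 0 = 0 := by
  have h := S.hσ 0
  rw [map_zero, map_zero, map_zero] at h
  exact h

theorem Sim.cfε (p : Polynomial D.Ω) : cf E.ε (p.map S.φ) = (p.map D.ε).map S.φ := by
  refine Polynomial.ext fun n => ?_
  rw [cf_coeff S.ε0, coeff_map, S.hε, coeff_map, coeff_map]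

theorem Sim.cfδ (p : Polynomial D.Ω) : cf E.δ (p.map S.φ) = (cw D.δ p).map S.φ := by
  refine Polynomial.ext fun n => ?_
  have h1 : (cw D.δ p).coeff n = D.δ (p.coeff n) := cf_coeff (map_zero D.δ) p n
  rw [cf_coeff S.δ0, coeff_map, S.hδ, coeff_map, h1]

/-- the map of the forms -/
noncomputable def Sim.phiL : LF D.ε →+* Matrix (Fin 2) (Fin 2) (Polynomial E.Ω) :=
  ((Polynomial.mapRingHom S.φ).mapMatrix).comp ((mu D.ε).comp (incL D.ε))

theorem Sim.phiL_apply (x : LF D.ε) : S.phiL x =
    !![x.1.a.map S.φ, x.1.b.map S.φ; 0, (x.1.a.map D.ε).map S.φ] := by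
  refine Matrix.ext fun i j => ?_
  fin_cases i <;> fin_cases j
  · rfl
  · rfl
  · exact Polynomial.map_zero S.φ
  · rfl

/-- the map of the polynomials -/
noncomputable def Sim.iotaL : LP D.A →+* Polynomial E.A :=
  (Polynomial.mapRingHom S.ι).comp (LR D.A).subtype

theorem Sim.iotaL_apply (x : LP D.A) : S.iotaL x = x.1.map S.ι := rfl

theorem Sim.ev0 (p : Polynomial D.A) : (p.map S.ι).eval 0 = S.ι (e0 p) := by
  induction p using Polynomial.induction_on' with
  | add p q hp hq => rw [Polynomial.map_add, eval_add, hp, hq, map_add, map_add]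
  | monomial n a =>
    rw [map_monomial, eval_monomial, e0_mon, map_mul, map_pow, map_zero]

theorem Sim.ev1 (p : Polynomial D.A) : (p.map S.ι).eval 1 = S.ι (e1 p) := by
  induction p using Polynomial.induction_on' with
  | add p q hp hq => rw [Polynomial.map_add, eval_add, hp, hq, map_add, map_add]
  | monomial n a =>
    rw [map_monomial, eval_monomial, e1_mon, one_pow, mul_one]

theorem Sim.memL (f : Polynomial E.A) (hf : (∀ n, E.P (f.coeff n)) ∧ f.eval 0 = f.eval 1) :
    ∃ b : LP D.A, S.iotaL b = f := by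
  obtain ⟨g, hg⟩ : ∃ g : Polynomial D.A, g.map S.ι = f := by
    rw [← Polynomial.mem_lifts, Polynomial.lifts_iff_coeff_lifts]
    intro n
    exact S.mem _ (hf.1 n)
  refine ⟨⟨g, ?_⟩, hg⟩
  show e0 g = e1 g
  apply S.inj
  rw [← S.ev0, ← S.ev1, hg]
  exact hf.2

theorem pol_coeff {A : Type y} [Ring A] {Ω : Type v} [Ring Ω] (σ : A →+* MonoidAlgebra Ω G)
    (p : Polynomial A) (h : G) (n : ℕ) :
    ((pol σ p).coeff h).coeff n = (σ (p.coeff n)).coeff h := by
  induction p using Polynomial.induction_on' with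
  | add p q hp hq =>
    rw [map_add, MonoidAlgebra.coeff_add, Finsupp.add_apply, Polynomial.coeff_add, hp, hq,
      Polynomial.coeff_add, map_add, MonoidAlgebra.coeff_add, Finsupp.add_apply]
  | monomial m a =>
    rw [pol_mon, coeff_monomial, coeff_monomial]
    split_ifs
    · rfl
    · rw [map_zero, MonoidAlgebra.coeff_zero]
      rfl

theorem Sim.sigL (hev : Ev D.ε D.σ) (g : LP D.A) :
    E.loop.σ (S.iotaL g) = MonoidAlgebra.mapRingHom G S.phiL (sL D.ε D.σ g) := by
  apply MonoidAlgebra.coeff_injective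
  refine Finsupp.ext fun h => ?_
  obtain ⟨q, hq, hq1⟩ := loop_sig E S.σ0 (S.iotaL g) h
  have h2 : (MonoidAlgebra.mapRingHom G S.phiL (sL D.ε D.σ g)).coeff h =
      S.phiL ((sL D.ε D.σ g).coeff h) := MonoidAlgebra.coeff_mapRingHom _ _ _
  refine hq.trans (Eq.trans ?_ h2.symm)
  show (Matrix.diagonal (fun _ => q) : Matrix (Fin 2) (Fin 2) (Polynomial E.Ω)) =
    S.phiL ((sL D.ε D.σ g).coeff h)
  rw [S.phiL_apply, sL_coeff]
  have h1 : q = ((pol D.σ g.1).coeff h).map S.φ := by
    refine Polynomial.ext fun n => ?_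
    rw [hq1, S.iotaL_apply, coeff_map, S.hσ, MonoidAlgebra.coeff_mapRingHom, coeff_map, pol_coeff]
  show _ = !![((pol D.σ g.1).coeff h).map S.φ, (0 : Polynomial D.Ω).map S.φ;
    0, (((pol D.σ g.1).coeff h).map D.ε).map S.φ]
  rw [pol_even D.σ hev, Polynomial.map_zero, ← h1]
  refine Matrix.ext fun i j => ?_
  fin_cases i <;> fin_cases j
  · rfl
  · rfl
  · rfl
  · rfl

/-- The comparison of the loops. -/
noncomputable def Sim.loop {N : ℕ} (h : D.IsCycle N) : Sim D.loop E.loop where
  φ := S.phiL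
  ι := S.iotaL
  inj x y hxy := Subtype.ext (Polynomial.map_injective S.ι S.inj hxy)
  mem f hf := S.memL f hf
  hε x := by
    show !![cf E.ε (S.phiL x 0 0), -cf E.ε (S.phiL x 0 1); 0, cf E.ε (S.phiL x 1 1)] =
      S.phiL (epL D.ε x)
    rw [S.phiL_apply, S.phiL_apply]
    refine Matrix.ext fun i j => ?_
    fin_cases i <;> fin_cases j
    · exact S.cfε x.1.a
    · show -cf E.ε (x.1.b.map S.φ) = (-(x.1.b.map D.ε)).map S.φ
      rw [S.cfε, Polynomial.map_neg]
    · rfl
    · exact S.cfε (x.1.a.map D.ε)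
  hδ x := by
    show !![cf E.δ (S.phiL x 0 0), cf E.ε (derivative (S.phiL x 0 0)) + cf E.δ (S.phiL x 0 1);
      0, -cf E.δ (S.phiL x 1 1)] = S.phiL (dlL D.ε D.δ x)
    rw [S.phiL_apply, S.phiL_apply]
    refine Matrix.ext fun i j => ?_
    fin_cases i <;> fin_cases j
    · exact S.cfδ x.1.a
    · show cf E.ε (derivative (x.1.a.map S.φ)) + cf E.δ (x.1.b.map S.φ) =
        ((derivative x.1.a).map D.ε + cw D.δ x.1.b).map S.φ
      rw [derivative_map, S.cfε, S.cfδ, Polynomial.map_add]
    · rfl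
    · show -cf E.δ ((x.1.a.map D.ε).map S.φ) = ((cw D.δ x.1.a).map D.ε).map S.φ
      rw [S.cfδ, cw_de h.tr.de, Polynomial.map_neg, neg_neg]
  hT x := by
    show integ E.T (S.phiL x 0 1) = II D.T x.1.b
    rw [S.phiL_apply]
    exact integ_map S.hT x.1.b
  hσ g := S.sigL h.ev g

/-- The comparison of the iterated loops. -/
noncomputable def Sim.loops {N : ℕ} (h : D.IsCycle N) (k : ℕ) : Sim (D.loops k) (E.loops k) := by
  induction k with
  | zero => exact S
  | succ k ih =>
    unfold Dat.loops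
    rw [Function.iterate_succ_apply']
    exact ih.loop (h.loops k)

end sim

end Pool.Agent.H416.KM
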